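import Pool.Agent.W297.LP.Stm

/-!
Project LP (helper297), problem MP_6505eb_co, frozen statement S09215: part LP-WALK2 (helper654).
-/

set_option autoImplicit false

open Finset
open Pool.Agent.W297.LP

namespace Pool.Agent.W654.LPW

theorem q_nonneg {V : Type} {Q : V → V → ℝ} (hQ : Ker Q) (x y : V) : 0 ≤ Q x y := by
  rcases hQ.zo x y with h | h <;> rw [h]
  norm_num

theorem sq_nonneg' {V : Type} [Fintype V] {Q : V → V → ℝ} (hQ : Ker Q) (x : V) :
    0 ≤ ∑ y, Q x y := Finset.sum_nonneg (fun y _ => q_nonneg hQ x y)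

theorem dg_mul_pp {V : Type} [Fintype V] {Q : V → V → ℝ} (hQ : Ker Q) (g : V → ℝ) (x : V) :
    dg Q x * pp Q g x = (∑ y, Q x y * g y) / (Fintype.card V : ℝ) := by
  unfold dg pp
  by_cases h : ∑ y, Q x y = 0
  · have h0 : ∀ y, Q x y = 0 := by
      intro y
      exact (Finset.sum_eq_zero_iff_of_nonneg (fun y _ => q_nonneg hQ x y)).1 h y (mem_univ y)
    simp [h0]
  · field_simp

theorem sum_dg_pp {V : Type} [Fintype V] {Q : V → V → ℝ} (hQ : Ker Q) (g : V → ℝ) :
    ∑ x, dg Q x * pp Q g x = ∑ x, dg Q x * g x := by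
  calc ∑ x, dg Q x * pp Q g x = ∑ x, (∑ y, Q x y * g y) / (Fintype.card V : ℝ) :=
        Finset.sum_congr rfl (fun x _ => dg_mul_pp hQ g x)
    _ = (∑ x, ∑ y, Q x y * g y) / (Fintype.card V : ℝ) := by rw [Finset.sum_div]
    _ = (∑ y, ∑ x, Q x y * g y) / (Fintype.card V : ℝ) := by rw [Finset.sum_comm]
    _ = ∑ y, (∑ x, Q x y * g y) / (Fintype.card V : ℝ) := by rw [Finset.sum_div]
    _ = ∑ y, dg Q y * g y := by
        apply Finset.sum_congr rfl
        intro y _
        unfold dg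
        rw [← Finset.sum_mul, Finset.sum_congr rfl (fun x _ => hQ.symm x y)]
        ring

theorem pp_le {V : Type} [Fintype V] {Q : V → V → ℝ} (hQ : Ker Q) (g : V → ℝ) (x : V) {K : ℝ}
    (hK : 0 ≤ K) (h : ∑ y, Q x y * g y ≤ K * ∑ y, Q x y) : pp Q g x ≤ K := by
  unfold pp
  exact div_le_of_le_mul₀ (sq_nonneg' hQ x) hK h

theorem le_pp {V : Type} [Fintype V] {Q : V → V → ℝ} (hQ : Ker Q) (g : V → ℝ) (x : V) {K : ℝ}
    (hK : 0 ≤ K) (h : ∀ y, -K ≤ g y) : -K ≤ pp Q g x := by
  have h2 : pp Q (fun y => - g y) x ≤ K := by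
    apply pp_le hQ _ _ hK
    rw [Finset.mul_sum]
    apply Finset.sum_le_sum
    intro y _
    have := q_nonneg hQ x y
    nlinarith [h y]
  have h3 : pp Q (fun y => - g y) x = - pp Q g x := by
    unfold pp
    simp [neg_div]
  linarith

theorem rt_le_sz : ∀ T : Tr, T.rt ≤ T.sz
  | .pt => le_refl _
  | .br A B => by
      have := rt_le_sz A
      simp only [Tr.rt, Tr.sz]
      omega

theorem part1 {V : Type} [Fintype V] {Q : V → V → ℝ} (hQ : Ker Q) (m : ℝ) :
    ∀ T : Tr, ∑ x, dg Q x * gt Q m T x = (T.sz : ℝ) * ∑ x, dg Q x * lf Q m x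
  | .pt => by simp [gt, Tr.sz]
  | .br A B => by
      have hA := part1 hQ m A
      have hB := part1 hQ m B
      have h1 : ∑ x, dg Q x * gt Q m (.br A B) x =
          ∑ x, dg Q x * gt Q m A x + ∑ x, dg Q x * lf Q m x +
            ∑ x, dg Q x * pp Q (gt Q m B) x := by
        rw [← Finset.sum_add_distrib, ← Finset.sum_add_distrib]
        apply Finset.sum_congr rfl
        intro x _
        simp only [gt]
        ring
      rw [h1, sum_dg_pp hQ, hA, hB]
      simp only [Tr.sz]
      push_cast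
      ring

theorem part2 {V : Type} [Fintype V] [DecidableEq V] {Q : V → V → ℝ} (hQ : Ker Q) (m : ℝ)
    (A : Finset V) (c1 c2 th : ℝ) (hc1 : 0 ≤ c1) (hc2 : 0 ≤ c2) (hth : 0 ≤ th)
    (hA : ∀ x ∈ A, ∀ y ∈ A, Q x y = 0) (h1 : ∀ x, x ∉ A → lf Q m x ≤ c1)
    (h2 : ∀ x ∈ A, 0 ≤ lf Q m x ∧ lf Q m x ≤ c2)
    (h3 : ∀ x, x ∉ A → ∑ y ∈ A, Q x y ≤ th * ∑ y, Q x y) :
    ∀ (T : Tr) (x : V), gt Q m T x ≤ (T.sz : ℝ) * c1 + ((T.sz : ℝ) - (T.rt : ℝ)) * (th * c2) +
        (T.rt : ℝ) * (if x ∈ A then lf Q m x else 0)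
  | .pt, x => by simp [gt, Tr.sz, Tr.rt]
  | .br A' B, x => by
      have hA' := part2 hQ m A c1 c2 th hc1 hc2 hth hA h1 h2 h3 A' x
      have hB := part2 hQ m A c1 c2 th hc1 hc2 hth hA h1 h2 h3 B
      have hlf : lf Q m x ≤ c1 + (if x ∈ A then lf Q m x else 0) := by
        split_ifs with hx
        · linarith
        · have := h1 x hx
          linarith
      have hS := sq_nonneg' hQ x
      have hfa : ∑ y, Q x y * (if y ∈ A then lf Q m y else 0) ≤ th * c2 * ∑ y, Q x y := by
        have e1 : ∑ y, Q x y * (if y ∈ A then lf Q m y else 0) = ∑ y ∈ A, Q x y * lf Q m y := by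
          rw [← Finset.sum_filter_add_sum_filter_not univ (fun y => y ∈ A)]
          rw [Finset.sum_eq_zero (s := univ.filter (fun y => ¬ y ∈ A))]
          · rw [add_zero]
            apply Finset.sum_congr
            · ext y; simp
            · intro y hy
              rw [if_pos hy]
          · intro y hy
            rw [if_neg (Finset.mem_filter.1 hy).2, mul_zero]
        rw [e1]
        by_cases hx : x ∈ A
        · rw [Finset.sum_eq_zero]
          · exact mul_nonneg (mul_nonneg hth hc2) hS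
          · intro y hy
            rw [hA x hx y hy, zero_mul]
        · calc ∑ y ∈ A, Q x y * lf Q m y ≤ ∑ y ∈ A, Q x y * c2 := by
                apply Finset.sum_le_sum
                intro y hy
                exact mul_le_mul_of_nonneg_left (h2 y hy).2 (q_nonneg hQ x y)
            _ = (∑ y ∈ A, Q x y) * c2 := by rw [Finset.sum_mul]
            _ ≤ (th * ∑ y, Q x y) * c2 := mul_le_mul_of_nonneg_right (h3 x hx) hc2
            _ = th * c2 * ∑ y, Q x y := by ring
      have hrs : (B.rt : ℝ) ≤ (B.sz : ℝ) := by exact_mod_cast rt_le_sz B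
      have hpp : pp Q (gt Q m B) x ≤ (B.sz : ℝ) * (c1 + th * c2) := by
        apply pp_le hQ
        · exact mul_nonneg (Nat.cast_nonneg _) (add_nonneg hc1 (mul_nonneg hth hc2))
        · calc ∑ y, Q x y * gt Q m B y ≤
                ∑ y, Q x y * ((B.sz : ℝ) * c1 + ((B.sz : ℝ) - (B.rt : ℝ)) * (th * c2) +
                  (B.rt : ℝ) * (if y ∈ A then lf Q m y else 0)) := by
                apply Finset.sum_le_sum
                intro y _
                exact mul_le_mul_of_nonneg_left (hB y) (q_nonneg hQ x y)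
            _ = ((B.sz : ℝ) * c1 + ((B.sz : ℝ) - (B.rt : ℝ)) * (th * c2)) * ∑ y, Q x y +
                (B.rt : ℝ) * ∑ y, Q x y * (if y ∈ A then lf Q m y else 0) := by
                rw [Finset.mul_sum, Finset.mul_sum, ← Finset.sum_add_distrib]
                apply Finset.sum_congr rfl
                intro y _
                ring
            _ ≤ ((B.sz : ℝ) * c1 + ((B.sz : ℝ) - (B.rt : ℝ)) * (th * c2)) * ∑ y, Q x y +
                (B.rt : ℝ) * (th * c2 * ∑ y, Q x y) := by
                have := mul_le_mul_of_nonneg_left hfa (Nat.cast_nonneg (α := ℝ) B.rt)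
                linarith
            _ = (B.sz : ℝ) * (c1 + th * c2) * ∑ y, Q x y := by ring
      have e : gt Q m (.br A' B) x = gt Q m A' x + lf Q m x + pp Q (gt Q m B) x := rfl
      rw [e]
      simp only [Tr.sz, Tr.rt]
      push_cast
      nlinarith [hA', hlf, hpp]

theorem part3 {V : Type} [Fintype V] {Q : V → V → ℝ} (hQ : Ker Q) (m c : ℝ) (hc : 0 ≤ c)
    (h : ∀ x, -c ≤ lf Q m x) : ∀ (T : Tr) (x : V), -((T.sz : ℝ) * c) ≤ gt Q m T x
  | .pt, x => by simp [gt, Tr.sz]
  | .br A B, x => by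
      have hA := part3 hQ m c hc h A x
      have hB := part3 hQ m c hc h B
      have hp := le_pp hQ (gt Q m B) x (mul_nonneg (Nat.cast_nonneg (α := ℝ) B.sz) hc) hB
      have e : gt Q m (.br A B) x = gt Q m A x + lf Q m x + pp Q (gt Q m B) x := rfl
      rw [e]
      simp only [Tr.sz]
      push_cast
      nlinarith [hA, hp, h x]

/-- LP-WALK2 -/
theorem walk2 : SWalk2 := by
  intro V _ _ Q hQ m _
  refine ⟨part1 hQ m, ?_, ?_⟩
  · intro A c1 c2 th hc1 hc2 hth hA h1 h2 h3
    exact part2 hQ m A c1 c2 th hc1 hc2 hth hA h1 h2 h3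
  · intro c hc h
    exact part3 hQ m c hc h

end Pool.Agent.W654.LPW
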