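import Pool.Agent.W533.LP.Defs
import Pool.Agent.W533.LP.Stm
import Pool.Agent.W533.LP.Stm3

set_option autoImplicit false

namespace Pool.Agent.W654.LP

open MeasureTheory ProbabilityTheory Pool.Agent.W533.LP

theorem pExit (hT1 : PT1) (hVB : PVB) (hTr : DTransp) (hOps : AOps) : PExit := by
  intro q hq0 hq1
  obtain ⟨C1, hC1, h1⟩ := hT1 q hq0 hq1
  obtain ⟨C2, hC2, h2⟩ := hVB q hq0 hq1
  have hC12 : 1 ≤ C1 * (3 * C2 + 1) := by nlinarith
  refine ⟨4 * (C1 * (3 * C2 + 1)), by linarith, ?_⟩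
  intro Ω _ μ a I J W ha hS m n u hn hnm hmn hu
  set t := Real.sqrt q with ht
  have ht0 : 0 < t := Real.sqrt_pos.mpr hq0
  have htt : t * t = q := Real.mul_self_sqrt hq0.le
  have ht1 : t < 1 := by
    by_contra hcon
    push Not at hcon
    nlinarith
  have htq : q < t := by nlinarith
  have hdd1 : dd q ≤ (t - q) / 4 := by
    unfold dd
    exact div_le_div_of_nonneg_right (min_le_left _ _) (by norm_num)
  have hdd2 : dd q ≤ (1 - t) / 4 := by
    unfold dd
    exact div_le_div_of_nonneg_right (min_le_right _ _) (by norm_num)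
  have hdd0 : 0 ≤ dd q := (abs_nonneg _).trans ha
  obtain ⟨ha1, ha2⟩ := abs_le.mp ha
  have haq : q < a := by nlinarith
  have ha1' : a < 1 := by linarith
  have ha0 : 0 < a := hq0.trans haq
  have ha34 : 3 / 4 * t ≤ a := by nlinarith
  set D := |(m : ℝ) - n| with hD
  set δ := |a - t| with hδ
  have hD0 : 0 ≤ D := abs_nonneg _
  have hδ0 : 0 ≤ δ := abs_nonneg _
  have hnR : (1 : ℝ) ≤ n := by exact_mod_cast hn
  have hmnR : (m : ℝ) ≤ 2 * n := by exact_mod_cast hmn
  have hnmR : (n : ℝ) ≤ 2 * m := by exact_mod_cast hnm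
  set R := (n : ℝ) ^ (2 / 3 : ℝ) with hR
  have hR0 : 0 ≤ R := Real.rpow_nonneg (by linarith) _
  have hX0 : 0 ≤ R + D + n * δ := by positivity
  set X := R + D + n * δ with hX
  have hU0 : (0 : ℝ) < (u : ℝ) + 1 := by positivity
  have hbig : C1 * X * 4 ≤ (u : ℝ) + 1 := by
    refine le_trans ?_ hu
    have : C1 * X * 4 ≤ 4 * (C1 * (3 * C2 + 1)) * X := by
      have : 0 ≤ C1 * X * C2 := by positivity
      nlinarith
    exact this
  have hXU : X * 4 ≤ (u : ℝ) + 1 := by
    refine le_trans ?_ hbig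
    nlinarith
  have hcomm : ∀ (V K c : ℝ), V ≤ 3 * C2 * ((u : ℝ) + 1) → 0 ≤ K →
      C1 * K * (V + ((u : ℝ) + 1)) / ((u : ℝ) + 1) ^ 4 ≤
        C1 * (3 * C2 + 1) * K / ((u : ℝ) + 1) ^ 3 := by
    intro V K c hV hK
    rw [div_le_div_iff₀ (by positivity) (by positivity)]
    have e1 : C1 * (3 * C2 + 1) * K * ((u : ℝ) + 1) ^ 4 =
      C1 * K * ((3 * C2 + 1) * ((u : ℝ) + 1)) * ((u : ℝ) + 1) ^ 3 := by ring
    rw [e1]
    refine mul_le_mul_of_nonneg_right ?_ (by positivity)
    refine mul_le_mul_of_nonneg_left ?_ (by positivity)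
    linarith
  refine ⟨fun hum => ?_, fun hun => ?_⟩
  · have hcond : C1 * (D + n * δ) ≤ (u : ℝ) + 1 := by
      refine le_trans ?_ hbig
      have : 0 ≤ C1 * (D + n * δ) := by positivity
      have : 0 ≤ C1 * R := by positivity
      have e : C1 * X * 4 = 4 * (C1 * R) + 4 * (C1 * (D + n * δ)) := by rw [hX]; ring
      rw [e]; linarith
    have hP := h1 μ a I J W (by linarith) hS m n u hn hnm hmn hum hcond
    have hV := h2 μ a I J W (by linarith) hS m n hn hnm hmn
    refine hP.trans ?_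
    have hV' : variance (fun ω => (Gr I J W m n ω : ℝ)) μ ≤ 3 * C2 * ((u : ℝ) + 1) := by
      refine hV.trans ?_
      have : C2 * X ≤ C2 * ((u : ℝ) + 1) := by
        refine mul_le_mul_of_nonneg_left ?_ (by positivity)
        linarith
      have h3 : 0 ≤ C2 * ((u : ℝ) + 1) := by positivity
      linarith
    refine (hcomm _ ((n : ℝ) ^ 2) 0 hV' (by positivity)).trans ?_
    refine div_le_div_of_nonneg_right ?_ (by positivity)
    have : 0 ≤ C1 * (3 * C2 + 1) * (n : ℝ) ^ 2 := by positivity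
    linarith
  · have hS' := (hOps μ q).2.1 a I J W hq0 haq ha1' hS
    have hqa : |q / a - t| ≤ 4 / 3 * δ := by
      have e : q / a - t = -(t * (a - t)) / a := by
        field_simp
        rw [← htt]; ring
      rw [e, abs_div, abs_neg, abs_mul, abs_of_pos ht0, abs_of_pos ha0, div_le_iff₀ ha0]
      have : 0 ≤ δ * (a - 3 / 4 * t) := mul_nonneg hδ0 (by linarith)
      nlinarith
    have hqa2 : |q / a - t| ≤ 2 * dd q := by
      refine hqa.trans ?_
      linarith
    have hm1 : 1 ≤ m := by omega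
    have hDs : |(n : ℝ) - m| = D := abs_sub_comm _ _
    have hmδ : (m : ℝ) * |q / a - t| ≤ 3 * (n * δ) := by
      calc (m : ℝ) * |q / a - t| ≤ (2 * n) * (4 / 3 * δ) := by
            refine mul_le_mul hmnR hqa (abs_nonneg _) (by positivity)
        _ = 8 / 3 * (n * δ) := by ring
        _ ≤ 3 * (n * δ) := by
            have : 0 ≤ (n : ℝ) * δ := by positivity
            linarith
    have hcond : C1 * (|(n : ℝ) - m| + m * |q / a - t|) ≤ (u : ℝ) + 1 := by
      refine le_trans ?_ hbig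
      rw [hDs]
      have e0 : 0 ≤ C1 * R := by positivity
      have e1 : 0 ≤ C1 * D := by positivity
      have e2 : 0 ≤ C1 * (n * δ) := by positivity
      have e3 : C1 * (m * |q / a - t|) ≤ C1 * (3 * (n * δ)) :=
        mul_le_mul_of_nonneg_left hmδ (by positivity)
      have e : C1 * X * 4 = 4 * (C1 * R) + 4 * (C1 * D) + 4 * (C1 * (n * δ)) := by rw [hX]; ring
      rw [e, mul_add]; linarith
    have hP := h1 μ (q / a) J I (fun i j => W j i) hqa2 hS' n m u hm1 hmn hnm hun hcond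
    have hV := h2 μ (q / a) J I (fun i j => W j i) hqa2 hS' n m hm1 hmn hnm
    have hset : Vs I J W u m n = Hs J I (fun i j => W j i) u n m := by
      ext ω
      simp only [Vs, Hs, Set.mem_setOf_eq, Gr]
      rw [hTr (fun i => I i ω) (bump (fun j => J j ω) u 1) (fun i j => W i j ω) m n,
        hTr (fun i => I i ω) (fun j => J j ω) (fun i j => W i j ω) m n]
    rw [hset]
    refine hP.trans ?_
    have hRm : (m : ℝ) ^ (2 / 3 : ℝ) ≤ 2 * R := by
      calc (m : ℝ) ^ (2 / 3 : ℝ) ≤ (2 * (n : ℝ)) ^ (2 / 3 : ℝ) :=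
            Real.rpow_le_rpow (by positivity) hmnR (by norm_num)
        _ = 2 ^ (2 / 3 : ℝ) * R := by
            rw [Real.mul_rpow (by norm_num) (by positivity)]
        _ ≤ 2 ^ (1 : ℝ) * R := by
            refine mul_le_mul_of_nonneg_right ?_ hR0
            exact Real.rpow_le_rpow_of_exponent_le (by norm_num) (by norm_num)
        _ = 2 * R := by rw [Real.rpow_one]
    have hV' : variance (fun ω => (Gr J I (fun i j => W j i) n m ω : ℝ)) μ ≤
        3 * C2 * ((u : ℝ) + 1) := by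
      refine hV.trans ?_
      rw [hDs]
      have e3 : (m : ℝ) ^ (2 / 3 : ℝ) + D + m * |q / a - t| ≤ 3 * X := by
        rw [hX]; linarith
      have : C2 * ((m : ℝ) ^ (2 / 3 : ℝ) + D + m * |q / a - t|) ≤ C2 * (3 * ((u : ℝ) + 1)) := by
        refine mul_le_mul_of_nonneg_left ?_ (by positivity)
        linarith
      linarith
    refine (hcomm _ ((m : ℝ) ^ 2) 0 hV' (by positivity)).trans ?_
    refine div_le_div_of_nonneg_right ?_ (by positivity)
    have hm2 : (m : ℝ) ^ 2 ≤ 4 * (n : ℝ) ^ 2 := by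
      have : (m : ℝ) ^ 2 ≤ (2 * (n : ℝ)) ^ 2 := pow_le_pow_left₀ (by positivity) hmnR 2
      linarith [this, (by ring : (2 * (n : ℝ)) ^ 2 = 4 * (n : ℝ) ^ 2)]
    calc C1 * (3 * C2 + 1) * (m : ℝ) ^ 2 ≤ C1 * (3 * C2 + 1) * (4 * (n : ℝ) ^ 2) :=
          mul_le_mul_of_nonneg_left hm2 (by positivity)
      _ = _ := by ring

end Pool.Agent.W654.LP
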